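import Pool.Agent.X26.LF.Stm

set_option autoImplicit false

namespace Pool.Agent.X286.LF

open Filter Topology

theorem t_SIZ : Pool.Agent.X26.LF.S_SIZ := by
  intro m C hm
  have hm0 : (0:ℝ) < m := by
    have : 0 < m := by omega
    exact_mod_cast this
  have hm1 : (2:ℝ) ≤ m := by exact_mod_cast hm
  set δ : ℝ := 1 / (4 * (m:ℝ)^2) with hδ
  have hδ0 : 0 < δ := by positivity
  have hcast : Tendsto (fun n : ℕ => (n:ℝ)) atTop atTop := tendsto_natCast_atTop_atTop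
  have hpow : Tendsto (fun x : ℝ => x^δ) atTop atTop := tendsto_rpow_atTop hδ0
  have ha : ∀ᶠ p : ℕ in atTop, ((Nat.log 2 p : ℝ) + 2) ≤ (p:ℝ)^δ := by
    have h1 : (fun x : ℝ => Real.log x) =o[atTop] (fun x : ℝ => x^δ) := isLittleO_log_rpow_atTop hδ0
    have h2 : (fun _ : ℝ => (2:ℝ)) =o[atTop] (fun x : ℝ => x^δ) := by
      rw [Asymptotics.isLittleO_const_left]
      right
      exact tendsto_norm_atTop_atTop.comp hpow
    have h3 : (fun x : ℝ => (Real.log 2)⁻¹ * Real.log x + 2) =o[atTop] (fun x : ℝ => x^δ) :=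
      (h1.const_mul_left _).add h2
    have h4 := hcast.eventually (h3.bound (c := 1) one_pos)
    filter_upwards [h4, eventually_ge_atTop 1] with p h5 hp
    have hp0 : (0:ℝ) ≤ p := by positivity
    rw [one_mul, Real.norm_of_nonneg (Real.rpow_nonneg hp0 δ)] at h5
    have h6 : (Nat.log 2 p : ℝ) ≤ (Real.log 2)⁻¹ * Real.log p := by
      have := Real.natLog_le_logb p 2
      rw [Real.logb, div_eq_inv_mul] at this
      exact_mod_cast this
    exact le_trans (by linarith) ((le_abs_self _).trans h5)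
  have hc : ∀ K : ℝ, ∀ᶠ p : ℕ in atTop, K ≤ (p:ℝ)^δ := fun K =>
    hcast.eventually (hpow.eventually_ge_atTop K)
  obtain ⟨P, hP⟩ := eventually_atTop.1 (((ha.and (hc C)).and
    (hc ((C:ℝ)^(1/(m:ℝ)) + (m + 1)))).and (eventually_ge_atTop 1))
  refine ⟨P, fun p hp => ?_⟩
  obtain ⟨⟨⟨h1, h2⟩, h3⟩, h4⟩ := hP p hp
  have hp1 : (1:ℝ) ≤ p := by exact_mod_cast h4
  have hp0 : (0:ℝ) < p := by linarith
  set s : ℕ := ⌈((C:ℝ) * p)^(1/(m:ℝ))⌉₊ with hs
  refine ⟨m + s, ?_, ?_⟩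
  · have e1 : (C:ℝ) * p ≤ (s:ℝ)^m := by
      have h5 : ((C:ℝ) * p)^(1/(m:ℝ)) ≤ s := Nat.le_ceil _
      have h6 : (((C:ℝ) * p)^(1/(m:ℝ)))^m ≤ (s:ℝ)^m :=
        pow_le_pow_left₀ (Real.rpow_nonneg (by positivity) _) h5 m
      have h7 : (((C:ℝ) * p)^(1/(m:ℝ)))^m = (C:ℝ) * p := by
        rw [← Real.rpow_natCast, ← Real.rpow_mul (by positivity), one_div,
          inv_mul_cancel₀ hm0.ne', Real.rpow_one]
      rw [h7] at h6
      exact h6
    have e2 : C * p ≤ s^m := by exact_mod_cast e1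
    refine e2.trans ?_
    refine le_trans ?_ (Nat.pow_sub_le_descFactorial (m + s) m)
    exact Nat.pow_le_pow_left (by omega) m
  · have hN : ((m + s : ℕ) : ℝ) ≤ (p:ℝ)^(1/(m:ℝ) + δ) := by
      have h5 : (s:ℝ) ≤ ((C:ℝ) * p)^(1/(m:ℝ)) + 1 :=
        (Nat.ceil_lt_add_one (Real.rpow_nonneg (by positivity) _)).le
      rw [Real.mul_rpow (by positivity) (by positivity)] at h5
      have h6 : (1:ℝ) ≤ (p:ℝ)^(1/(m:ℝ)) := Real.one_le_rpow hp1 (by positivity)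
      rw [Real.rpow_add hp0]
      push_cast
      have h7 : (p:ℝ)^(1/(m:ℝ)) * ((C:ℝ)^(1/(m:ℝ)) + (m + 1)) ≤ (p:ℝ)^(1/(m:ℝ)) * (p:ℝ)^δ :=
        mul_le_mul_of_nonneg_left h3 (by linarith)
      nlinarith
    have key : (C:ℝ) * (((Nat.log 2 p : ℝ) + 2) * ((m + s : ℕ) : ℝ))^(2*m-1) ≤ (p:ℝ)^2 := by
      have h5 : ((Nat.log 2 p : ℝ) + 2) * ((m + s : ℕ) : ℝ) ≤ (p:ℝ)^δ * (p:ℝ)^(1/(m:ℝ) + δ) :=
        mul_le_mul h1 hN (by positivity) (by positivity)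
      have h6 : (((Nat.log 2 p : ℝ) + 2) * ((m + s : ℕ) : ℝ))^(2*m-1) ≤
          ((p:ℝ)^δ * (p:ℝ)^(1/(m:ℝ) + δ))^(2*m-1) := pow_le_pow_left₀ (by positivity) h5 _
      have h7 : (C:ℝ) * (((Nat.log 2 p : ℝ) + 2) * ((m + s : ℕ) : ℝ))^(2*m-1) ≤
          (p:ℝ)^δ * ((p:ℝ)^δ * (p:ℝ)^(1/(m:ℝ) + δ))^(2*m-1) :=
        mul_le_mul h2 h6 (by positivity) (by positivity)
      refine h7.trans ?_
      rw [← Real.rpow_add hp0, ← Real.rpow_natCast ((p:ℝ)^(δ + (1/(m:ℝ) + δ))), ← Real.rpow_mul hp0.le,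
        ← Real.rpow_add hp0, ← Real.rpow_natCast (p:ℝ) 2]
      refine Real.rpow_le_rpow_of_exponent_le hp1 ?_
      have e3 : ((2*m-1 : ℕ) : ℝ) = 2 * m - 1 := by
        rw [Nat.cast_sub (by omega)]
        push_cast
        ring
      rw [e3]
      push_cast
      have e4 : δ * (4 * (m:ℝ)^2) = 1 := by
        rw [hδ]
        field_simp
      have e5 : δ + (δ + (1/(m:ℝ) + δ)) * (2 * m - 1) = 2 - 1/(m:ℝ) + δ * (4 * m - 1) := by
        field_simp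
        ring
      rw [e5]
      have e6 : δ * (4 * m - 1) ≤ 1/(m:ℝ) := by
        rw [le_div_iff₀ hm0]
        nlinarith
      linarith
    exact_mod_cast key

end Pool.Agent.X286.LF
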